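import Pool.Agent.H15.FLX.Targets
import Pool.Agent.H53.MC.AL
import Pool.Agent.H53.MC.LS
import Pool.Agent.H53.MC.LX
import Pool.Agent.H53.MC.PL
import Pool.Agent.H53.MC.TOC
import Pool.Agent.H79.MSC.LK
import Pool.Agent.H41.MC.CAP

/-!
MP_c62aed_lc, random CNFs, row ABX: part (1). Copy of `Pool/Agent/H53/MC/AL.lean` without the
gap property.
-/

set_option autoImplicit false

namespace Pool.Agent.H36.FLX

open Finset
open Pool.Agent.H15.FLX
open Pool.Agent.H53.MC (Clause Falsified SatBy Line Circuit U Viol toC scope Ins cnt H1 Covers Ker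
  Err InR Bad cf tau Derives natCard_le natCard_or)

theorem natCard_exMul {α β : Type} [Finite α] (S : Finset β) (P : β → α → Prop) (Y Z : ℕ)
    (h : ∀ b ∈ S, Nat.card {x // P b x} * Y ≤ Z) :
    Nat.card {x // ∃ b ∈ S, P b x} * Y ≤ S.card * Z := by
  classical
  have := Fintype.ofFinite α
  rw [Nat.card_eq_fintype_card, Fintype.card_subtype]
  have h1 : (univ.filter fun x : α => ∃ b ∈ S, P b x) =
      S.biUnion fun b => univ.filter fun x => P b x := by
    ext x
    simp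
  rw [h1]
  refine (Nat.mul_le_mul_right Y Finset.card_biUnion_le).trans ?_
  rw [Finset.sum_mul, ← smul_eq_mul]
  refine Finset.sum_le_card_nsmul _ _ _ fun b hb => ?_
  have := h b hb
  rwa [Nat.card_eq_fintype_card, Fintype.card_subtype] at this

theorem pf_ABX (hLFX : T_LFX) (hHTX : T_HTX) : T_ABX := by
  classical
  intro n M k μ g γ t w d s₀ r q hg hH hP 𝓛 L
  have hr : 1 ≤ r := by
    have := hP.rr
    have := hP.t1
    omega
  obtain ⟨E, hEc, hE⟩ := Pool.Agent.H53.MC.pf_LS Pool.Agent.H53.MC.pf_LX g r w d s₀ hr hP.d1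
    hP.wn hH 𝓛
  obtain ⟨N, hN⟩ : ∃ N, N = Nat.card (Signs n M μ) := ⟨_, rfl⟩
  obtain ⟨a, ha⟩ : ∃ a, a = Nat.card {σ : Signs n M μ // Derives (cf g (FG g σ)) 𝓛 t L} :=
    ⟨_, rfl⟩
  obtain ⟨b, hb⟩ : ∃ b, b = Nat.card {x // x ∉ L} := ⟨_, rfl⟩
  obtain ⟨B, hB⟩ : ∃ B, B = Nat.card {σ : Signs n M μ //
    ∃ L ∈ 𝓛, Bad g q {Ker g r w (Lᶜ \ E)} (FG g σ)} := ⟨_, rfl⟩
  rw [← hN, ← ha, ← hb]
  -- the bad signs
  have hBad : B * (2 ^ k) ^ (q + 1) ≤ 𝓛.card * ((s₀ * μ) ^ (q + 1) * N) := by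
    rw [hB, hN]
    refine natCard_exMul 𝓛 (fun L (σ : Signs n M μ) => Bad g q {Ker g r w (Lᶜ \ E)} (FG g σ))
      _ _ fun L' hL' => ?_
    refine hLFX g w s₀ q hg hH {Ker g r w (L'ᶜ \ E)} ?_ ?_
    · intro K hK K' hK' hne
      rw [Set.mem_singleton_iff] at hK hK'
      exact absurd (hK.trans hK'.symm) hne
    · intro K hK p hp
      rw [Set.mem_singleton_iff] at hK
      rw [hK] at hp
      exact hp.1
  have hBN : 𝓛.card ≤ 2 ^ n → 4 * (2 ^ t * B) ≤ N := by
    intro hs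
    have h1 : (2 ^ k) ^ (q + 1) * (4 * (2 ^ t * B)) ≤ (2 ^ k) ^ (q + 1) * N := by
      calc (2 ^ k) ^ (q + 1) * (4 * (2 ^ t * B)) = 4 * 2 ^ t * (B * (2 ^ k) ^ (q + 1)) := by
            ring
        _ ≤ 4 * 2 ^ t * (𝓛.card * ((s₀ * μ) ^ (q + 1) * N)) := Nat.mul_le_mul_left _ hBad
        _ ≤ 4 * 2 ^ t * (2 ^ n * ((s₀ * μ) ^ (q + 1) * N)) :=
            Nat.mul_le_mul_left _ (Nat.mul_le_mul_right _ hs)
        _ = 2 ^ (n + t + 2) * (s₀ * μ) ^ (q + 1) * N := by
            rw [pow_add, pow_add]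
            ring
        _ ≤ (2 ^ k) ^ (q + 1) * N := Nat.mul_le_mul_right _ hP.bad
    exact Nat.le_of_mul_le_mul_left h1 (by positivity)
  -- derived lines of good formulas
  have hgood : ∀ σ : Signs n M μ, ¬ (∃ L ∈ 𝓛, Bad g q {Ker g r w (Lᶜ \ E)} (FG g σ)) →
      Derives (cf g (FG g σ)) 𝓛 t L →
      L ∈ 𝓛 ∧ (∃ T : Finset (U M k), InR (FG g σ) T ∧ T.card ≤ q ∧ Covers g T (Lᶜ \ E)) ∧
      ∀ p ∈ Ker g r w (Lᶜ \ E), ∃ j, Ins g p (FG g σ j) := by
    intro σ hF hD
    refine Pool.Agent.H53.MC.pf_PL Pool.Agent.H79.MSC.pf_LK Pool.Agent.H53.MC.pf_TOC g r w _ q t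
      hg hP.rr 𝓛 E hE (FG g σ) ?_ L hD
    intro L' hL' hbad
    exact hF ⟨L', hL', hbad⟩
  have hbc : b = (Lᶜ).card := by
    rw [hb, Nat.card_eq_fintype_card, Fintype.card_subtype]
    congr 1
    ext x
    simp
  have hb2 : b ≤ 2 ^ n := by
    rw [hbc]
    calc (Lᶜ).card ≤ Fintype.card (Fin n → Bool) := Finset.card_le_univ _
      _ = 2 ^ n := by simp
  have hsplit : b ≤ E.card + (Lᶜ \ E).card := by
    rw [hbc]
    have := Finset.card_le_card_sdiff_add_card (s := Lᶜ) (t := E)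
    omega
  have hNpos : 0 < N := by
    rw [hN]
    exact Nat.card_pos
  have hpow : (2 : ℝ) ^ (γ * n) * 2 ^ ((1 - γ) * n) = 2 ^ n := by
    rw [← Real.rpow_add (by norm_num), ← Real.rpow_natCast]
    congr 1
    ring
  have hEr : (E.card : ℝ) ≤ 𝓛.card * tau n r w d s₀ := by exact_mod_cast hEc
  have hγ : 0 ≤ 1 - γ := by
    have := hP.γ1
    linarith
  have h1pow : (1 : ℝ) ≤ 2 ^ ((1 - γ) * n) := Real.one_le_rpow (by norm_num) (by positivity)
  refine ⟨fun hs hbig => ?_, fun hs => ?_⟩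
  · -- (a)
    have hsn : 𝓛.card ≤ 2 ^ n := by
      have h1 : (𝓛.card : ℝ) ≤ 2 ^ n := by
        refine hs.trans ?_
        rw [← hpow]
        exact le_mul_of_one_le_right (by positivity) h1pow
      exact_mod_cast h1
    have hin : ∀ σ : Signs n M μ, Derives (cf g (FG g σ)) 𝓛 t L →
        ∃ L ∈ 𝓛, Bad g q {Ker g r w (Lᶜ \ E)} (FG g σ) := by
      intro σ hD
      by_contra hno
      obtain ⟨_, ⟨T, _, hTq, hTc⟩, _⟩ := hgood σ hno hD
      have h1 := Pool.Agent.H41.MC.pf_CAP g q hg T (Lᶜ \ E) hTq hTc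
      have h2 : 4 * (E.card : ℝ) ≤ 2 ^ n := by
        calc 4 * (E.card : ℝ) ≤ 4 * (𝓛.card * tau n r w d s₀) := by linarith
          _ = 𝓛.card * (4 * tau n r w d s₀) := by ring
          _ ≤ 2 ^ (γ * n) * 2 ^ ((1 - γ) * n) :=
              mul_le_mul hs hP.tau4 (by positivity) (by positivity)
          _ = 2 ^ n := hpow
      have h3 : 4 * E.card ≤ 2 ^ n := by exact_mod_cast h2
      have h4 := hP.cov
      omega
    have h5 : a ≤ B := by
      rw [ha, hB]
      exact natCard_le _ _ hin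
    have h6 : 2 ^ t * a ≤ 2 ^ t * B := Nat.mul_le_mul_left _ h5
    have h7 := hBN hsn
    omega
  · -- (b)
    by_cases hLL : L ∈ 𝓛
    · have hsn : 𝓛.card ≤ 2 ^ n := by
        have h1 : (𝓛.card : ℝ) ≤ 2 ^ n := by
          have h2 : (b : ℝ) ≤ 2 ^ n := by exact_mod_cast hb2
          have h3 : (𝓛.card : ℝ) ≤ 𝓛.card * 2 ^ ((1 - γ) * n) :=
            le_mul_of_one_le_right (Nat.cast_nonneg _) h1pow
          linarith
        exact_mod_cast h1
      have hEb : E.card < b := by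
        have h1 : (E.card : ℝ) < b := by
          calc (E.card : ℝ) ≤ 𝓛.card * tau n r w d s₀ := hEr
            _ ≤ 𝓛.card * 2 ^ ((1 - γ) * n) := by
                refine mul_le_mul_of_nonneg_left ?_ (Nat.cast_nonneg _)
                have h2 := hP.tau4
                have h3 : (0 : ℝ) ≤ tau n r w d s₀ := Nat.cast_nonneg _
                linarith
            _ < b := hs
        exact_mod_cast h1
      have hne : (Lᶜ \ E).Nonempty := by
        rw [← Finset.card_pos]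
        omega
      obtain ⟨x, hx⟩ := hne
      have hxE : x ∉ Err g r w (Lᶜ \ E) := by
        rw [hE L hLL]
        exact Finset.notMem_empty x
      obtain ⟨A, hAw, hAK⟩ : ∃ A : Finset (Fin n), A.card < w ∧
          (A, x) ∈ Ker g r w (Lᶜ \ E) := by
        by_contra hno
        push Not at hno
        refine hxE ?_
        unfold Pool.Agent.H53.MC.Err
        rw [Finset.mem_filter]
        exact ⟨hx, hno⟩
      have hin : ∀ σ : Signs n M μ, Derives (cf g (FG g σ)) 𝓛 t L →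
          (∃ L ∈ 𝓛, Bad g q {Ker g r w (Lᶜ \ E)} (FG g σ)) ∨
            ∃ j, Ins g (A, x) (FG g σ j) := by
        intro σ hD
        by_cases hbd : ∃ L ∈ 𝓛, Bad g q {Ker g r w (Lᶜ \ E)} (FG g σ)
        · exact Or.inl hbd
        · exact Or.inr ((hgood σ hbd hD).2.2 _ hAK)
      obtain ⟨W, hW⟩ : ∃ W, W = Nat.card {σ : Signs n M μ // ∃ j, Ins g (A, x) (FG g σ j)} :=
        ⟨_, rfl⟩
      have h5 : a ≤ B + W := by
        rw [ha, hB, hW]
        exact (natCard_le _ _ hin).trans (natCard_or _ _)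
      have h6 : W * 2 ^ k ≤ s₀ * μ * N := by
        rw [hW, hN]
        exact hHTX g w s₀ hg hH (A, x) hAw
      have h7 : 4 * (t * W) ≤ N := by
        have h8 : 2 ^ k * (4 * (t * W)) ≤ 2 ^ k * N := by
          calc 2 ^ k * (4 * (t * W)) = 4 * t * (W * 2 ^ k) := by ring
            _ ≤ 4 * t * (s₀ * μ * N) := Nat.mul_le_mul_left _ h6
            _ = 4 * (t * (s₀ * μ)) * N := by ring
            _ ≤ 2 ^ k * N := Nat.mul_le_mul_right _ hP.hit
        exact Nat.le_of_mul_le_mul_left h8 (by positivity)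
      have ht2 : t ≤ 2 ^ t := Nat.lt_two_pow_self.le
      have h9 : t * B ≤ 2 ^ t * B := Nat.mul_le_mul_right _ ht2
      have h10 := hBN hsn
      have h11 : t * a ≤ t * (B + W) := Nat.mul_le_mul_left _ h5
      rw [mul_add] at h11
      omega
    · have ha0 : a = 0 := by
        rw [ha]
        have : IsEmpty {σ : Signs n M μ // Derives (cf g (FG g σ)) 𝓛 t L} := by
          refine ⟨fun F => hLL ?_⟩
          cases F.2 with
          | step _ _ _ h _ _ _ _ _ => exact h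
        exact Nat.card_of_isEmpty
      rw [ha0, mul_zero]
      exact Nat.zero_le _

end Pool.Agent.H36.FLX
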